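import Pool.Agent.Helper61.QE.St2

/-!
# Project QD (MP_d112a4_gt), part E, module TUP: a good quadruple
-/

set_option autoImplicit false

open MeasureTheory Set Filter Topology Complex
open scoped ContDiff ComplexConjugate ENNReal

namespace Pool.Agent.Helper99.QE

open Pool.Agent.Helper61.QE

private theorem TUP_map (μ : Measure ℂ) [IsFiniteMeasure μ] (i j : Fin 4) (hij : i ≠ j) :
    (Measure.pi fun _ : Fin 4 => μ).map (fun a => (a i, a j)) =
      (μ univ ^ 2 • μ).prod μ := by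
  symm
  have : IsFiniteMeasure (μ univ ^ 2 • μ) := by
    constructor
    rw [Measure.smul_apply, smul_eq_mul]
    exact ENNReal.mul_lt_top (ENNReal.pow_lt_top (measure_lt_top μ univ)) (measure_lt_top μ univ)
  refine Measure.prod_eq ?_
  intro s t hs ht
  rw [Measure.map_apply (by fun_prop) (hs.prod ht)]
  have e : (fun a : Fin 4 → ℂ => (a i, a j)) ⁻¹' (s ×ˢ t) =
      Set.pi univ (fun k => if k = i then s else if k = j then t else univ) := by
    ext a
    simp only [mem_preimage, mem_prod, Set.mem_pi, mem_univ, true_implies]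
    constructor
    · rintro ⟨h1, h2⟩ k
      by_cases hk : k = i
      · rw [hk, if_pos rfl]
        exact h1
      · rw [if_neg hk]
        by_cases hk' : k = j
        · rw [hk', if_pos rfl]
          exact h2
        · rw [if_neg hk']
          exact mem_univ _
    · intro h
      have h1 := h i
      have h2 := h j
      rw [if_pos rfl] at h1
      rw [if_neg hij.symm, if_pos rfl] at h2
      exact ⟨h1, h2⟩
  rw [e, Measure.pi_pi, Fin.prod_univ_four, Measure.smul_apply, smul_eq_mul]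
  fin_cases i <;> fin_cases j <;> first | exact absurd rfl hij | (simp; ring)

theorem pTUP : Pool.Agent.Helper61.QE.StTUP := by
  intro μ _ A E α β hE hsw hA hα hβ hlt
  by_contra hno
  push Not at hno
  obtain ⟨ν, hν⟩ : ∃ ν, ν = Measure.pi fun _ : Fin 4 => μ := ⟨_, rfl⟩
  obtain ⟨P, hP⟩ : ∃ P : Finset (Fin 4 × Fin 4), P = Finset.univ.filter fun p => p.1 < p.2 :=
    ⟨_, rfl⟩
  have hcard : P.card = 6 := by
    rw [hP]
    rfl
  have hcov : Set.pi univ A ⊆ ⋃ p ∈ P, (fun a : Fin 4 → ℂ => (a p.1, a p.2)) ⁻¹'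
      (E ∩ (A p.1) ×ˢ (A p.2)) := by
    intro a ha
    have ha' : ∀ i, a i ∈ A i := fun i => ha i (mem_univ i)
    obtain ⟨i, j, hij, hE'⟩ := hno a ha'
    rw [mem_iUnion₂]
    rcases lt_or_gt_of_ne hij with h | h
    · exact ⟨(i, j), by rw [hP]; simpa using h, hE', ha' i, ha' j⟩
    · exact ⟨(j, i), by rw [hP]; simpa using h, hsw _ hE', ha' j, ha' i⟩
  have h1 : ν (Set.pi univ A) ≤ ∑ p ∈ P, ν ((fun a : Fin 4 → ℂ => (a p.1, a p.2)) ⁻¹'
      (E ∩ (A p.1) ×ˢ (A p.2))) :=
    (measure_mono hcov).trans (measure_biUnion_finset_le P _)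
  have h2 : ∀ p ∈ P, ν ((fun a : Fin 4 → ℂ => (a p.1, a p.2)) ⁻¹' (E ∩ (A p.1) ×ˢ (A p.2))) ≤
      μ univ ^ 2 * β := by
    intro p hp
    rw [hP, Finset.mem_filter] at hp
    have hne : p.1 ≠ p.2 := hp.2.ne
    rw [hν, ← Measure.map_apply (by fun_prop) (hE.inter ((hA p.1).prod (hA p.2))),
      TUP_map μ p.1 p.2 hne, Measure.prod_smul_left, Measure.smul_apply, smul_eq_mul]
    exact mul_le_mul_right (hβ p.1 p.2 hne) _
  have h3 := h1.trans (Finset.sum_le_card_nsmul P _ _ h2)
  rw [hcard, hν, Measure.pi_pi, Fin.prod_univ_four, nsmul_eq_mul] at h3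
  have h4 : α ^ 4 ≤ μ (A 0) * μ (A 1) * μ (A 2) * μ (A 3) := by
    calc α ^ 4 = α * α * α * α := by ring
      _ ≤ _ := mul_le_mul' (mul_le_mul' (mul_le_mul' (hα 0) (hα 1)) (hα 2)) (hα 3)
  have h5 := h4.trans h3
  apply absurd hlt
  rw [not_lt]
  refine h5.trans (le_of_eq ?_)
  push_cast
  ring

end Pool.Agent.Helper99.QE
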